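import Pool.Agent.Lib.MP_41d825_an.CycMain
import Pool.Agent.Lib.MP_41d825_an.CycDefs

namespace Pool.Agent.Results.MP_41d825_an.MaxTwo

open Pool.Agent.Lib.MP_41d825_an.Cyc

theorem result :
    (∀ a b c d e f : ℝ, {O | IsLimitCycle (rigid a b c d e f) O}.encard ≤ 2) ∧
    ∃ a b c d e : ℝ, {O | IsLimitCycle (rigid a b c d e 0) O}.encard = 2 ∧
      {O | IsPeriodicOrbit (rigid a b c d e 0) O}.encard = 2 :=
  ⟨upper, lower⟩

end Pool.Agent.Results.MP_41d825_an.MaxTwo
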